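import Pool.Agent.MP_f12303_co.Isoperimetric

open Function

namespace Pool.Agent.MP_f12303_co

variable {n : ℕ}

/-- Integer cube as a finset. -/
noncomputable def box (x : Fin n → ℤ) (k : ℕ) : Finset (Fin n → ℤ) :=
  Fintype.piFinset (fun i => Finset.Icc (x i - k) (x i + k))

lemma mem_box {x y : Fin n → ℤ} {k : ℕ} : y ∈ box x k ↔ ∀ i, |y i - x i| ≤ k := by
  simp only [box, Fintype.mem_piFinset, Finset.mem_Icc, abs_le]
  constructor
  · intro h i
    have := h i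
    constructor <;> linarith [this.1, this.2]
  · intro h i
    have := h i
    constructor <;> linarith [this.1, this.2]

lemma card_box (x : Fin n → ℤ) (k : ℕ) : (box x k).card = (2 * k + 1) ^ n := by
  simp only [box, Fintype.card_piFinset, Int.card_Icc]
  have : ∀ i, (x i + k + 1 - (x i - k)).toNat = 2 * k + 1 := by
    intro i
    have : x i + k + 1 - (x i - k) = ((2 * k + 1 : ℕ) : ℤ) := by push_cast; ring
    rw [this, Int.toNat_natCast]
  simp [this]

lemma mem_box_one_of_adj {x y : Fin n → ℤ} (h : LatticeAdj x y) : y ∈ box x 1 := by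
  rw [mem_box]
  intro i
  rw [abs_sub_comm]
  exact_mod_cast abs_le_one_of_adj h i

/-- The neighbours of a finite set. -/
lemma ncard_nbrs_le (T : Set (Fin n → ℤ)) (hT : T.Finite) :
    {y | ∃ x ∈ T, LatticeAdj x y}.Finite ∧
      {y | ∃ x ∈ T, LatticeAdj x y}.ncard ≤ 3 ^ n * T.ncard := by
  classical
  have hsub : {y | ∃ x ∈ T, LatticeAdj x y} ⊆ ↑(hT.toFinset.biUnion (fun x => box x 1)) := by
    rintro y ⟨x, hx, hxy⟩
    simp only [Finset.coe_biUnion, Set.mem_iUnion, Finset.mem_coe, Set.Finite.mem_toFinset]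
    exact ⟨x, hx, mem_box_one_of_adj hxy⟩
  refine ⟨(Finset.finite_toSet _).subset hsub, ?_⟩
  refine (Set.ncard_le_ncard hsub (Finset.finite_toSet _)).trans ?_
  rw [Set.ncard_coe_finset, Set.ncard_eq_toFinset_card T hT]
  refine Finset.card_biUnion_le.trans ?_
  simp [card_box, mul_comm]

/-- The edges at a finite set. -/
lemma ncard_edges_le (T : Set (Fin n → ℤ)) (hT : T.Finite) :
    {e : Sym2 (Fin n → ℤ) | ∃ x ∈ T, ∃ y, LatticeAdj x y ∧ e = s(x, y)}.Finite ∧
      {e : Sym2 (Fin n → ℤ) | ∃ x ∈ T, ∃ y, LatticeAdj x y ∧ e = s(x, y)}.ncard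
        ≤ 3 ^ n * T.ncard := by
  classical
  have hsub : {e : Sym2 (Fin n → ℤ) | ∃ x ∈ T, ∃ y, LatticeAdj x y ∧ e = s(x, y)} ⊆
      ↑(hT.toFinset.biUnion (fun x => (box x 1).image (fun y => s(x, y)))) := by
    rintro e ⟨x, hx, y, hxy, rfl⟩
    simp only [Finset.coe_biUnion, Set.mem_iUnion, Finset.mem_coe, Set.Finite.mem_toFinset,
      Finset.mem_image]
    exact ⟨x, hx, y, mem_box_one_of_adj hxy, rfl⟩
  refine ⟨(Finset.finite_toSet _).subset hsub, ?_⟩
  refine (Set.ncard_le_ncard hsub (Finset.finite_toSet _)).trans ?_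
  rw [Set.ncard_coe_finset, Set.ncard_eq_toFinset_card T hT]
  refine Finset.card_biUnion_le.trans ?_
  calc ∑ x ∈ hT.toFinset, ((box x 1).image (fun y => s(x, y))).card
      ≤ ∑ x ∈ hT.toFinset, 3 ^ n := by
        apply Finset.sum_le_sum
        intro x _
        refine Finset.card_image_le.trans ?_
        simp [card_box]
    _ = 3 ^ n * hT.toFinset.card := by simp [mul_comm]

lemma edgesAt_finite (U : Set (Fin n → ℤ)) (hU : U.Finite) : (edgesAt U).Finite := by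
  refine (ncard_edges_le U hU).1.subset ?_
  rintro e ⟨x, y, rfl, hxy, hx, -⟩
  exact ⟨x, hx, y, hxy, rfl⟩

lemma mem_closure_of_mem_edgesAt {U : Set (Fin n → ℤ)} {x y : Fin n → ℤ}
    (h : s(x, y) ∈ edgesAt U) : x ∈ graphClosure U ∧ y ∈ graphClosure U := by
  obtain ⟨a, b, hab, -, ha, hb⟩ := h
  have ha' : a ∈ graphClosure U := Or.inl ha
  rcases Sym2.eq_iff.1 hab with ⟨rfl, rfl⟩ | ⟨rfl, rfl⟩
  · exact ⟨ha', hb⟩
  · exact ⟨hb, ha'⟩

lemma edgeBoundary_inter_closure (M U : Set (Fin n → ℤ)) :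
    edgeBoundary (M ∩ graphClosure U) ∩ edgesAt U = edgeBoundary M ∩ edgesAt U := by
  ext e
  constructor
  · rintro ⟨⟨x, y, rfl, hxy, hx, hy⟩, he⟩
    have := mem_closure_of_mem_edgesAt he
    exact ⟨⟨x, y, rfl, hxy, hx.1, fun h => hy ⟨h, this.2⟩⟩, he⟩
  · rintro ⟨⟨x, y, rfl, hxy, hx, hy⟩, he⟩
    have := mem_closure_of_mem_edgesAt he
    exact ⟨⟨x, y, rfl, hxy, ⟨hx, this.1⟩, fun h => hy h.1⟩, he⟩

/-- Symmetric form of minimality. -/
def LocMin (M : Set (Fin n → ℤ)) : Prop :=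
  ∀ U : Set (Fin n → ℤ), U.Finite → ∀ M' : Set (Fin n → ℤ), (∀ z, z ∉ U → (z ∈ M' ↔ z ∈ M)) →
    (edgeBoundary M ∩ edgesAt U).ncard ≤ (edgeBoundary M' ∩ edgesAt U).ncard

lemma IsMinimalSubgraph.locMin {M : Set (Fin n → ℤ)} (h : IsMinimalSubgraph M) : LocMin M := by
  intro U hU M' hM'
  have := (h.2.2 U hU).2 (M' ∩ graphClosure U) Set.inter_subset_right (by
    ext z
    constructor
    · rintro ⟨⟨h1, h2⟩, h3⟩
      exact ⟨⟨(hM' z h3.1).1 h1, h2⟩, h3⟩
    · rintro ⟨⟨h1, h2⟩, h3⟩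
      exact ⟨⟨(hM' z h3.1).2 h1, h2⟩, h3⟩)
  rwa [edgeBoundary_inter_closure, edgeBoundary_inter_closure] at this

lemma edgeBoundary_compl (M : Set (Fin n → ℤ)) : edgeBoundary Mᶜ = edgeBoundary M := by
  ext e
  constructor
  · rintro ⟨x, y, rfl, hxy, hx, hy⟩
    exact ⟨y, x, Sym2.eq_swap, latticeAdj_symm hxy, by simpa using hy, hx⟩
  · rintro ⟨x, y, rfl, hxy, hx, hy⟩
    exact ⟨y, x, Sym2.eq_swap, latticeAdj_symm hxy, hy, by simpa using hx⟩

lemma LocMin.compl {M : Set (Fin n → ℤ)} (h : LocMin M) : LocMin Mᶜ := by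
  intro U hU M' hM'
  have := h U hU M'ᶜ (by
    intro z hz
    have := hM' z hz
    simp only [Set.mem_compl_iff] at *
    tauto)
  rwa [edgeBoundary_compl, ← edgeBoundary_compl M] at this

/-- Comparison with the set emptied inside `U`. -/
lemma LocMin.boundary_le {M : Set (Fin n → ℤ)} (h : LocMin M) (U : Set (Fin n → ℤ))
    (hU : U.Finite) :
    (vertexBoundary (M ∩ U)).ncard ≤ 2 * 3 ^ n * (M ∩ exteriorBoundary U).ncard := by
  classical
  set T := M ∩ exteriorBoundary U with hT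
  have hext : (exteriorBoundary U).Finite := by
    refine (ncard_nbrs_le U hU).1.subset ?_
    rintro z ⟨-, w, hw, hzw⟩
    exact ⟨w, hw, latticeAdj_symm hzw⟩
  have hTfin : T.Finite := hext.subset Set.inter_subset_right
  have h1 : (edgeBoundary M ∩ edgesAt U).ncard ≤ 3 ^ n * T.ncard := by
    refine (h U hU (M \ U) (fun z hz => by simp [hz])).trans ?_
    refine le_trans (Set.ncard_le_ncard ?_ (ncard_edges_le T hTfin).1) (ncard_edges_le T hTfin).2
    rintro e ⟨⟨x, y, rfl, hxy, hx, hy⟩, he⟩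
    have := (mem_closure_of_mem_edgesAt he).1
    rcases this with h' | h'
    · exact absurd h' hx.2
    · exact ⟨x, ⟨hx.1, h'⟩, y, hxy, rfl⟩
  let S : Set (Fin n → ℤ) := {x | x ∈ M ∩ U ∧ ∃ y, y ∉ M ∧ LatticeAdj x y}
  have h2 : S.ncard ≤ (edgeBoundary M ∩ edgesAt U).ncard := by
    have hch : ∀ x, ∃ y, x ∈ S → (y ∉ M ∧ LatticeAdj x y) := by
      intro x
      by_cases hx : x ∈ S
      · obtain ⟨y, hy⟩ := hx.2
        exact ⟨y, fun _ => hy⟩
      · exact ⟨x, fun h => absurd h hx⟩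
    choose g hg using hch
    refine Set.ncard_le_ncard_of_injOn (fun x => s(x, g x)) ?_ ?_
      ((edgesAt_finite U hU).subset Set.inter_subset_right)
    · intro x hx
      obtain ⟨hy, hxy⟩ := hg x hx
      refine ⟨⟨x, g x, rfl, hxy, hx.1.1, hy⟩, ⟨x, g x, rfl, hxy, hx.1.2, ?_⟩⟩
      by_cases hgu : g x ∈ U
      · exact Or.inl hgu
      · exact Or.inr ⟨hgu, x, hx.1.2, latticeAdj_symm hxy⟩
    · intro x hx x' hx' hxx
      rcases Sym2.eq_iff.1 hxx with ⟨h', -⟩ | ⟨h', -⟩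
      · exact h'
      · exact absurd (h' ▸ hx.1.1) (hg x' hx').1
  have hSfin : S.Finite := hU.subset (fun x hx => hx.1.2)
  have h3 : vertexBoundary (M ∩ U) ⊆ S ∪ {y | ∃ x ∈ T, LatticeAdj x y} := by
    rintro x ⟨hx, y, hy, hxy⟩
    by_cases hyM : y ∈ M
    · right
      have hyU : y ∉ U := fun h => hy ⟨hyM, h⟩
      exact ⟨y, ⟨hyM, hyU, x, hx.2, latticeAdj_symm hxy⟩, latticeAdj_symm hxy⟩
    · left
      exact ⟨hx, y, hyM, hxy⟩
  have h4 := Set.ncard_le_ncard h3 (hSfin.union (ncard_nbrs_le T hTfin).1)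
  have h5 := Set.ncard_union_le S {y | ∃ x ∈ T, LatticeAdj x y}
  have h6 := (ncard_nbrs_le T hTfin).2
  calc (vertexBoundary (M ∩ U)).ncard ≤ 3 ^ n * T.ncard + 3 ^ n * T.ncard := by omega
    _ = 2 * 3 ^ n * T.ncard := by ring

lemma box_mono (x : Fin n → ℤ) {k l : ℕ} (h : k ≤ l) : box x k ⊆ box x l := by
  intro y hy
  rw [mem_box] at *
  intro i
  exact (hy i).trans (by exact_mod_cast h)

/-- The discrete differential inequality for the volume in cubes. -/
lemma LocMin.growth_step (hn : 2 ≤ n) {M : Set (Fin n → ℤ)} (h : LocMin M) (x : Fin n → ℤ)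
    (k : ℕ) : ∃ d : ℕ, (M ∩ box x k).ncard + d ≤ (M ∩ box x (k + 1)).ncard ∧
      (M ∩ box x k).ncard ^ (n - 1) ≤ (2 * 3 ^ n * d) ^ n := by
  classical
  refine ⟨(M ∩ exteriorBoundary (box x k : Set (Fin n → ℤ))).ncard, ?_, ?_⟩
  · have hsub : exteriorBoundary (box x k : Set (Fin n → ℤ)) ⊆ box x (k + 1) := by
      rintro z ⟨-, w, hw, hzw⟩
      rw [Finset.mem_coe, mem_box] at *
      intro i
      have h1 := abs_le_one_of_adj hzw i
      have h2 := hw i
      rw [abs_le] at *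
      push_cast
      constructor <;> linarith [h1.1, h1.2, h2.1, h2.2]
    have hfin : (M ∩ (box x (k + 1) : Set (Fin n → ℤ))).Finite :=
      (Finset.finite_toSet _).subset Set.inter_subset_right
    have hdisj : Disjoint (M ∩ (box x k : Set (Fin n → ℤ)))
        (M ∩ exteriorBoundary (box x k : Set (Fin n → ℤ))) := by
      rw [Set.disjoint_left]
      rintro z ⟨-, h2⟩ ⟨-, h3⟩
      exact h3.1 h2
    rw [← Set.ncard_union_eq hdisj ((Finset.finite_toSet _).subset Set.inter_subset_right)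
      (hfin.subset (fun z hz => ⟨hz.1, hsub hz.2⟩))]
    apply Set.ncard_le_ncard _ hfin
    rintro z (⟨h1, h2⟩ | ⟨h1, h2⟩)
    · exact ⟨h1, box_mono x (Nat.le_succ k) h2⟩
    · exact ⟨h1, hsub h2⟩
  · refine (isoperimetric hn _ ((Finset.finite_toSet _).subset Set.inter_subset_right)).trans ?_
    exact Nat.pow_le_pow_left (h.boundary_le _ (Finset.finite_toSet _)) n

end Pool.Agent.MP_f12303_co
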