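import Mathlib

namespace Pool.Agent.MP_f12303_co

variable {n : ℕ}

/-- Lattice points `x, y` of `ℤⁿ` are adjacent iff their Euclidean distance is `1`. -/
def LatticeAdj (x y : Fin n → ℤ) : Prop := ∑ i, (x i - y i) ^ 2 = 1

/-- The vertex boundary `δΩ`. -/
def vertexBoundary (Ω : Set (Fin n → ℤ)) : Set (Fin n → ℤ) :=
  {x | x ∈ Ω ∧ ∃ y, y ∉ Ω ∧ LatticeAdj x y}

/-- The exterior vertex boundary `τΩ`. -/
def exteriorBoundary (Ω : Set (Fin n → ℤ)) : Set (Fin n → ℤ) :=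
  {z | z ∉ Ω ∧ ∃ w, w ∈ Ω ∧ LatticeAdj z w}

/-- `Ω ∪ τΩ`. -/
def graphClosure (Ω : Set (Fin n → ℤ)) : Set (Fin n → ℤ) := Ω ∪ exteriorBoundary Ω

/-- The edge boundary `∂Ω`: edges with exactly one endpoint in `Ω`. -/
def edgeBoundary (Ω : Set (Fin n → ℤ)) : Set (Sym2 (Fin n → ℤ)) :=
  {e | ∃ x y, e = s(x, y) ∧ LatticeAdj x y ∧ x ∈ Ω ∧ y ∉ Ω}

/-- `E_Ω`: edges `{x, y}` with `x ∈ Ω` and `y ∈ Ω ∪ τΩ`. -/
def edgesAt (Ω : Set (Fin n → ℤ)) : Set (Sym2 (Fin n → ℤ)) :=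
  {e | ∃ x y, e = s(x, y) ∧ LatticeAdj x y ∧ x ∈ Ω ∧ y ∈ graphClosure Ω}

/-- `K ⊆ U ∪ τU` has least perimeter in `U`. -/
def HasLeastPerimeter (U K : Set (Fin n → ℤ)) : Prop :=
  K ⊆ graphClosure U ∧
    ∀ K' : Set (Fin n → ℤ), K' ⊆ graphClosure U →
      K' ∩ exteriorBoundary U = K ∩ exteriorBoundary U →
      (edgeBoundary K ∩ edgesAt U).ncard ≤ (edgeBoundary K' ∩ edgesAt U).ncard

/-- A minimal subgraph of `ℤⁿ`. -/
def IsMinimalSubgraph (M : Set (Fin n → ℤ)) : Prop :=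
  M.Nonempty ∧ M ≠ Set.univ ∧
    ∀ U : Set (Fin n → ℤ), U.Finite → HasLeastPerimeter U (M ∩ graphClosure U)

/-- The lattice points of the closed cube of radius `r` centred at `x`. -/
def cube (x : Fin n → ℤ) (r : ℝ) : Set (Fin n → ℤ) :=
  {y | ∀ i, |(y i : ℝ) - (x i : ℝ)| ≤ r}

end Pool.Agent.MP_f12303_co
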