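import Pool.Agent.MP_f12303_co.Comparison

open Function

namespace Pool.Agent.MP_f12303_co

variable {n : ℕ}

lemma add_pow_le_aux (m : ℕ) (t c : ℝ) (ht : 1 ≤ t) (hc0 : 0 ≤ c) (hc1 : c ≤ 1) :
    (t + c) ^ (m + 1) ≤ t ^ (m + 1) + c * ((m + 1) * 2 ^ m) * t ^ m := by
  induction m with
  | zero => simp
  | succ m ih =>
    have ht0 : 0 ≤ t := by linarith
    have htm : 0 ≤ t ^ m := by positivity
    have h2 : (0 : ℝ) ≤ 2 ^ m := by positivity
    have h21 : (1 : ℝ) ≤ 2 ^ m := one_le_pow₀ (by norm_num)
    have hA : 0 ≤ c * ((m + 1) * 2 ^ m) * t ^ m := by positivity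
    have hct : t + c ≤ 2 * t := by linarith
    calc (t + c) ^ (m + 1 + 1) = (t + c) ^ (m + 1) * (t + c) := pow_succ _ _
      _ ≤ (t ^ (m + 1) + c * ((m + 1) * 2 ^ m) * t ^ m) * (t + c) := by gcongr
      _ = t ^ (m + 1 + 1) + c * t ^ (m + 1) + c * ((m + 1) * 2 ^ m) * t ^ m * (t + c) := by ring
      _ ≤ t ^ (m + 1 + 1) + c * t ^ (m + 1) + c * ((m + 1) * 2 ^ m) * t ^ m * (2 * t) := by
        gcongr
      _ = t ^ (m + 1 + 1) + c * (1 + (m + 1) * 2 ^ (m + 1)) * t ^ (m + 1) := by ring
      _ ≤ t ^ (m + 1 + 1) + c * (((m + 1 : ℕ) + 1) * 2 ^ (m + 1)) * t ^ (m + 1) := by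
        gcongr
        push_cast
        have : (1 : ℝ) ≤ 2 ^ (m + 1) := one_le_pow₀ (by norm_num)
        nlinarith

/-- The density constant. -/
noncomputable def dens (n : ℕ) : ℝ := 1 / (2 * 3 ^ n * (n * 2 ^ (n - 1)))

lemma dens_pos (hn : 2 ≤ n) : 0 < dens n := by
  unfold dens
  have : (0 : ℝ) < n := by exact_mod_cast (by omega : 0 < n)
  positivity

lemma dens_le_one (hn : 2 ≤ n) : dens n ≤ 1 := by
  unfold dens
  have h0 : (1 : ℝ) ≤ n := by exact_mod_cast (by omega : 1 ≤ n)
  have h1 : (1 : ℝ) ≤ 3 ^ n := one_le_pow₀ (by norm_num)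
  have h2 : (1 : ℝ) ≤ 2 ^ (n - 1) := one_le_pow₀ (by norm_num)
  rw [div_le_one (by positivity)]
  have h3 : (1 : ℝ) ≤ n * 2 ^ (n - 1) := one_le_mul_of_one_le_of_one_le h0 h2
  have h4 : (1 : ℝ) ≤ 2 * 3 ^ n := by linarith
  exact one_le_mul_of_one_le_of_one_le h4 h3

/-- Density estimate in integer cubes. -/
lemma LocMin.volume_ge (hn : 2 ≤ n) {M : Set (Fin n → ℤ)} (h : LocMin M) {x : Fin n → ℤ}
    (hx : x ∈ M) (k : ℕ) : (1 + dens n * k) ^ n ≤ ((M ∩ box x k).ncard : ℝ) := by
  have hc0 := dens_pos hn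
  have hc1 := dens_le_one hn
  induction k with
  | zero =>
    have hfin : (M ∩ (box x 0 : Set (Fin n → ℤ))).Finite :=
      (Finset.finite_toSet _).subset Set.inter_subset_right
    have : 0 < (M ∩ (box x 0 : Set (Fin n → ℤ))).ncard := by
      rw [Set.ncard_pos hfin]
      exact ⟨x, hx, by rw [Finset.mem_coe, mem_box]; simp⟩
    simp only [Nat.cast_zero, mul_zero, add_zero, one_pow]
    exact_mod_cast this
  | succ k ih =>
    obtain ⟨d, hd1, hd2⟩ := h.growth_step hn x k
    set t : ℝ := 1 + dens n * k with ht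
    have ht1 : 1 ≤ t := by
      have : 0 ≤ dens n * k := by positivity
      linarith
    have hd1' : ((M ∩ box x k).ncard : ℝ) + d ≤ (M ∩ box x (k + 1)).ncard := by
      exact_mod_cast hd1
    have hd2' : ((M ∩ box x k).ncard : ℝ) ^ (n - 1) ≤ (2 * 3 ^ n * d) ^ n := by
      exact_mod_cast hd2
    have h3 : (t ^ (n - 1)) ^ n ≤ (2 * 3 ^ n * (d : ℝ)) ^ n := by
      calc (t ^ (n - 1)) ^ n = (t ^ n) ^ (n - 1) := by rw [← pow_mul, ← pow_mul, mul_comm]
        _ ≤ ((M ∩ box x k).ncard : ℝ) ^ (n - 1) := by gcongr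
        _ ≤ _ := hd2'
    have h4 : t ^ (n - 1) ≤ 2 * 3 ^ n * (d : ℝ) :=
      le_of_pow_le_pow_left₀ (by omega) (by positivity) h3
    obtain ⟨m, rfl⟩ : ∃ m, n = m + 1 := ⟨n - 1, by omega⟩
    have h5 := add_pow_le_aux m t (dens (m + 1)) ht1 hc0.le hc1
    have h6 : dens (m + 1) * ((m + 1) * 2 ^ m) = 1 / (2 * 3 ^ (m + 1)) := by
      unfold dens
      simp only [Nat.add_sub_cancel]
      push_cast
      field_simp
    rw [h6] at h5
    simp only [Nat.add_sub_cancel] at h4
    have h7 : 1 / (2 * 3 ^ (m + 1)) * t ^ m ≤ (d : ℝ) := by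
      rw [div_mul_eq_mul_div, one_mul, div_le_iff₀ (by positivity)]
      linarith
    have h8 : 1 + dens (m + 1) * ((k + 1 : ℕ) : ℝ) = t + dens (m + 1) := by
      rw [ht]; push_cast; ring
    rw [h8]
    linarith

/-- Poincaré inequality in a cube. -/
lemma poincare_box (M : Set (Fin n → ℤ)) (x : Fin n → ℤ) (k : ℕ) :
    (M ∩ box x k).ncard * (Mᶜ ∩ box x k).ncard ≤
      n * (2 * k + 1) ^ (n + 1) * (vertexBoundary M ∩ box x k).ncard := by
  classical
  let I : Fin n → Finset ℤ := fun i => Finset.Icc (x i - k) (x i + k)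
  have hI : ∀ i, (I i).card = 2 * k + 1 := by
    intro i
    simp only [I, Int.card_Icc]
    have : x i + k + 1 - (x i - k) = ((2 * k + 1 : ℕ) : ℤ) := by push_cast; ring
    rw [this, Int.toNat_natCast]
  have hbox : ∀ y, y ∈ box x k ↔ ∀ i, y i ∈ I i := by
    intro y
    simp only [box, Fintype.mem_piFinset, I]
  let A := (box x k).filter (fun y => y ∈ M)
  let B := (box x k).filter (fun y => y ∉ M)
  let D := (box x k).filter (fun y => y ∈ vertexBoundary M)
  have hA : (M ∩ box x k).ncard = A.card := by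
    rw [← Set.ncard_coe_finset]; congr 1; ext y; simp [A, and_comm]
  have hB : (Mᶜ ∩ box x k).ncard = B.card := by
    rw [← Set.ncard_coe_finset]; congr 1; ext y; simp [B, and_comm]
  have hD : (vertexBoundary M ∩ box x k).ncard = D.card := by
    rw [← Set.ncard_coe_finset]; congr 1; ext y; simp [D, and_comm]
  rw [hA, hB, hD, ← Finset.card_product]
  let S : Fin n → (Fin n → ℤ) → Finset ((Fin n → ℤ) × (Fin n → ℤ)) := fun j w =>
    Fintype.piFinset (fun i => if j < i then {w i} else I i) ×ˢ
      Fintype.piFinset (fun i => if i < j then {w i} else I i)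
  have hS : ∀ j w, (S j w).card = (2 * k + 1) ^ (n + 1) := by
    intro j w
    simp only [S, Finset.card_product, Fintype.card_piFinset]
    rw [← Finset.prod_mul_distrib]
    have : ∀ i, (if j < i then ({w i} : Finset ℤ) else I i).card *
        (if i < j then ({w i} : Finset ℤ) else I i).card =
        (2 * k + 1) * (if i = j then 2 * k + 1 else 1) := by
      intro i
      rcases lt_trichotomy i j with h | h | h
      · simp [h, h.ne, not_lt.2 h.le, hI]
      · subst h; simp [hI]
      · simp [h, h.ne', not_lt.2 h.le, hI]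
    simp_rw [this]
    rw [Finset.prod_mul_distrib]
    simp [pow_succ]
  have hsub : A ×ˢ B ⊆ Finset.univ.biUnion (fun j : Fin n => D.biUnion (fun w => S j w)) := by
    rintro ⟨a, b⟩ hab
    rw [Finset.mem_product] at hab
    obtain ⟨ha, hb⟩ := hab
    simp only [A, B, Finset.mem_filter] at ha hb
    let z : ℕ → (Fin n → ℤ) := fun j i => if (i : ℕ) < j then b i else a i
    have hz0 : z 0 = a := by ext i; simp [z]
    have hzn : z n = b := by ext i; simp [z, i.2]
    have hex : ∃ j, j < n ∧ z j ∈ M ∧ z (j + 1) ∉ M := by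
      by_contra hcon
      push Not at hcon
      have : ∀ j, j ≤ n → z j ∈ M := by
        intro j
        induction j with
        | zero => intro _; rw [hz0]; exact ha.2
        | succ j ih => intro hj; exact hcon j (by omega) (ih (by omega))
      exact hb.2 (hzn ▸ this n le_rfl)
    obtain ⟨j, hj, h1, h2⟩ := hex
    let J : Fin n := ⟨j, hj⟩
    have e1 : update (z j) J (a J) = z j := by
      ext i
      by_cases hi : i = J
      · subst hi; simp [z, J]
      · simp [update_of_ne hi]
    have e2 : update (z j) J (b J) = z (j + 1) := by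
      ext i
      by_cases hi : i = J
      · subst hi; simp [z, J]
      · rw [update_of_ne hi]
        have : (i : ℕ) ≠ j := fun h => hi (Fin.ext h)
        simp only [z]
        by_cases h3 : (i : ℕ) < j
        · rw [if_pos h3, if_pos (by omega)]
        · rw [if_neg h3, if_neg (by omega)]
    obtain ⟨u, v, hu1, hu2, huv, hu, hv⟩ := exists_switch (fun s => update (z j) J s ∈ M)
      (a J) (b J) (by rw [e1]; exact h1) (by rw [e2]; exact h2)
    have haI := (hbox a).1 ha.1
    have hbI := (hbox b).1 hb.1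
    have huI : u ∈ I J := by
      have h3 := haI J
      have h4 := hbI J
      simp only [I, Finset.mem_Icc] at h3 h4 ⊢
      omega
    simp only [Finset.mem_biUnion, Finset.mem_univ, true_and]
    refine ⟨J, update (z j) J u, ?_, ?_⟩
    · simp only [D, Finset.mem_filter]
      refine ⟨(hbox _).2 ?_, hu, update (z j) J v, hv, latticeAdj_update _ _ _ _ huv⟩
      intro i
      by_cases hi : i = J
      · subst hi; simpa using huI
      · rw [update_of_ne hi]
        simp only [z]
        split_ifs
        · exact hbI i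
        · exact haI i
    · simp only [S, Finset.mem_product, Fintype.mem_piFinset]
      constructor
      · intro i
        split_ifs with h3
        · rw [Finset.mem_singleton, update_of_ne h3.ne']
          have : j < (i : ℕ) := h3
          simp only [z]
          rw [if_neg (by omega)]
        · exact haI i
      · intro i
        split_ifs with h3
        · rw [Finset.mem_singleton, update_of_ne h3.ne]
          have : (i : ℕ) < j := h3
          simp only [z]
          rw [if_pos this]
        · exact hbI i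
  refine (Finset.card_le_card hsub).trans (Finset.card_biUnion_le.trans ?_)
  calc ∑ j : Fin n, (D.biUnion (fun w => S j w)).card
      ≤ ∑ j : Fin n, (2 * k + 1) ^ (n + 1) * D.card := by
        apply Finset.sum_le_sum
        intro j _
        refine Finset.card_biUnion_le.trans ?_
        simp [hS, mul_comm]
    _ = n * (2 * k + 1) ^ (n + 1) * D.card := by simp [mul_assoc]

end Pool.Agent.MP_f12303_co
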