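import Pool.Agent.MP_f12303_co.Defs

open MeasureTheory Function
open scoped ENNReal

namespace Pool.Agent.MP_f12303_co

variable {n : ℕ}

lemma pi_count_eq :
    (Measure.pi (fun _ : Fin n => (Measure.count : Measure ℤ))) = Measure.count := by
  apply Measure.ext_of_singleton
  intro a
  rw [← Set.univ_pi_singleton, Measure.pi_pi]
  simp [Set.univ_pi_singleton]

/-- Loomis-Whitney type bound: if every axis-parallel line through a point of `A` meets `D`,
then `|A|^(n-1) ≤ |D|^n`. -/
lemma card_pow_le_of_lines (hn : 2 ≤ n) (A D : Finset (Fin n → ℤ))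
    (h : ∀ x ∈ A, ∀ i, ∃ t : ℤ, update x i t ∈ D) :
    A.card ^ (n - 1) ≤ D.card ^ n := by
  classical
  have hn1 : (1 : ℝ) < n := by exact_mod_cast (lt_of_lt_of_le one_lt_two hn)
  have hn0 : (0 : ℝ) < (n : ℝ) - 1 := by linarith
  set p : ℝ := (n : ℝ) / ((n : ℝ) - 1) with hp
  have hconj : Real.HolderConjugate (Fintype.card (Fin n)) p := by
    rw [Fintype.card_fin]
    exact Real.HolderConjugate.conjExponent hn1
  let f : (Fin n → ℤ) → ℝ≥0∞ := (D : Set (Fin n → ℤ)).indicator 1
  have hf : Measurable f := measurable_of_countable f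
  have key := lintegral_prod_lintegral_pow_le
    (fun _ : Fin n => (Measure.count : Measure ℤ)) hconj hf
  rw [pi_count_eq] at key
  have h1 : ∫⁻ x, f x ∂(Measure.count : Measure (Fin n → ℤ)) = D.card := by
    simp only [f]
    rw [lintegral_indicator_one (MeasurableSet.of_discrete), Measure.count_apply_finset]
  have h2 : (A.card : ℝ≥0∞) ≤ ∫⁻ x, ∏ i, (∫⁻ t, f (update x i t) ∂(Measure.count : Measure ℤ)) ^
      ((1 : ℝ) / ((Fintype.card (Fin n) : ℝ) - 1)) ∂(Measure.count : Measure (Fin n → ℤ)) := by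
    rw [← Measure.count_apply_finset, ← lintegral_indicator_one (MeasurableSet.of_discrete)]
    apply lintegral_mono
    intro x
    by_cases hx : x ∈ (A : Set (Fin n → ℤ))
    · rw [Set.indicator_of_mem hx]
      apply Finset.one_le_prod'
      intro i _
      obtain ⟨t, ht⟩ := h x hx i
      have h3 : (1 : ℝ≥0∞) ≤ ∫⁻ t, f (update x i t) ∂(Measure.count : Measure ℤ) := by
        rw [lintegral_count]
        refine le_trans ?_ (ENNReal.le_tsum t)
        simp only [f]
        rw [Set.indicator_of_mem (by exact_mod_cast ht)]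
        simp
      apply ENNReal.one_le_rpow h3
      rw [Fintype.card_fin]
      positivity
    · rw [Set.indicator_of_notMem hx]
      exact zero_le
  rw [h1] at key
  have h4 : (A.card : ℝ≥0∞) ≤ (D.card : ℝ≥0∞) ^ p := h2.trans key
  have h5 : (A.card : ℝ≥0∞) ^ (n - 1) ≤ (D.card : ℝ≥0∞) ^ n := by
    calc (A.card : ℝ≥0∞) ^ (n - 1) ≤ ((D.card : ℝ≥0∞) ^ p) ^ (n - 1) := by gcongr
      _ = (D.card : ℝ≥0∞) ^ n := by
        rw [← ENNReal.rpow_natCast, ← ENNReal.rpow_mul, ← ENNReal.rpow_natCast]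
        congr 1
        rw [Nat.cast_sub (by omega), hp]
        push_cast
        field_simp
  exact_mod_cast h5

lemma latticeAdj_symm {x y : Fin n → ℤ} (h : LatticeAdj x y) : LatticeAdj y x := by
  unfold LatticeAdj at *
  rw [← h]
  apply Finset.sum_congr rfl
  intro i _
  ring

lemma latticeAdj_update (x : Fin n → ℤ) (i : Fin n) (s t : ℤ) (h : (s - t) ^ 2 = 1) :
    LatticeAdj (update x i s) (update x i t) := by
  unfold LatticeAdj
  rw [Finset.sum_eq_single i]
  · simpa using h
  · intro j _ hj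
    simp [update_of_ne hj]
  · simp

lemma abs_le_one_of_adj {x y : Fin n → ℤ} (h : LatticeAdj x y) (i : Fin n) :
    |x i - y i| ≤ 1 := by
  unfold LatticeAdj at h
  have h1 : (x i - y i) ^ 2 ≤ 1 := by
    rw [← h]
    exact Finset.single_le_sum (f := fun j => (x j - y j) ^ 2)
      (fun j _ => sq_nonneg _) (Finset.mem_univ i)
  exact (sq_le_one_iff_abs_le_one _).1 h1

/-- Discrete intermediate value step, going up. -/
lemma exists_switch_up (P : ℤ → Prop) (s : ℤ) (m : ℕ) (hs : P s) (ht : ¬ P (s + m)) :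
    ∃ u, s ≤ u ∧ u + 1 ≤ s + m ∧ P u ∧ ¬ P (u + 1) := by
  induction m with
  | zero => exact absurd hs (by simpa using ht)
  | succ m ih =>
    by_cases hm : P (s + m)
    · refine ⟨s + m, by omega, by push_cast; omega, hm, ?_⟩
      push_cast at ht
      rwa [add_assoc]
    · obtain ⟨u, h1, h2, h3, h4⟩ := ih hm
      exact ⟨u, h1, by push_cast; omega, h3, h4⟩

/-- Discrete intermediate value theorem. -/
lemma exists_switch (P : ℤ → Prop) (s t : ℤ) (hs : P s) (ht : ¬ P t) :
    ∃ u v, min s t ≤ u ∧ u ≤ max s t ∧ (u - v) ^ 2 = 1 ∧ P u ∧ ¬ P v := by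
  rcases le_total s t with h | h
  · obtain ⟨m, rfl⟩ := Int.le.dest h
    obtain ⟨u, h1, h2, h3, h4⟩ := exists_switch_up P s m hs ht
    exact ⟨u, u + 1, by omega, by omega, by ring, h3, h4⟩
  · obtain ⟨m, rfl⟩ := Int.le.dest h
    obtain ⟨u, h1, h2, h3, h4⟩ := exists_switch_up (fun z => ¬ P z) t m ht (by simpa using hs)
    exact ⟨u + 1, u, by omega, by omega, by ring, by simpa using h4, h3⟩

/-- Vertex isoperimetric inequality in `ℤⁿ`. -/
lemma isoperimetric (hn : 2 ≤ n) (A : Set (Fin n → ℤ)) (hA : A.Finite) :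
    A.ncard ^ (n - 1) ≤ (vertexBoundary A).ncard ^ n := by
  classical
  have hD : (vertexBoundary A).Finite := hA.subset (fun x hx => hx.1)
  rw [Set.ncard_eq_toFinset_card A hA, Set.ncard_eq_toFinset_card _ hD]
  apply card_pow_le_of_lines hn
  intro x hx i
  rw [Set.Finite.mem_toFinset] at hx
  have hinf : ∃ t : ℤ, update x i t ∉ A := by
    by_contra hcon
    push Not at hcon
    have hinj : Injective (fun t : ℤ => update x i t) := update_injective x i
    exact (Set.infinite_of_injective_forall_mem hinj hcon) hA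
  obtain ⟨t, ht⟩ := hinf
  obtain ⟨u, v, -, -, h3, h4, h5⟩ := exists_switch (fun z => update x i z ∈ A) (x i) t
    (by simpa using hx) ht
  refine ⟨u, ?_⟩
  rw [Set.Finite.mem_toFinset]
  exact ⟨h4, update x i v, h5, latticeAdj_update x i u v h3⟩

end Pool.Agent.MP_f12303_co
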