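import Pool.Agent.MP_f12303_co.Growth

open Function

namespace Pool.Agent.MP_f12303_co

variable {n : ℕ}

lemma cube_eq_box (x : Fin n → ℤ) {r : ℝ} (hr : 0 ≤ r) : cube x r = box x ⌊r⌋₊ := by
  ext y
  simp only [cube, Set.mem_ofPred_eq, Finset.mem_coe, mem_box]
  apply forall_congr'
  intro i
  rw [← Int.cast_sub, ← Int.cast_abs, ← Int.le_floor, Int.natCast_floor_eq_floor hr]

lemma box_subset_box {x y : Fin n → ℤ} {d k : ℕ} (hy : y ∈ box x d) :
    box y k ⊆ box x (d + k) := by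
  intro z hz
  rw [mem_box] at *
  intro i
  have h1 := hy i
  have h2 := hz i
  rw [abs_le] at *
  push_cast
  constructor <;> linarith [h1.1, h1.2, h2.1, h2.2]

lemma exists_mem_box (x y : Fin n → ℤ) : ∃ d : ℕ, y ∈ box x d := by
  refine ⟨∑ i, (y i - x i).natAbs, ?_⟩
  rw [mem_box]
  intro i
  rw [Int.abs_eq_natAbs]
  exact_mod_cast Finset.single_le_sum (f := fun j => (y j - x j).natAbs)
    (fun j _ => Nat.zero_le _) (Finset.mem_univ i)

lemma volume_bound (hn : 2 ≤ n) {M : Set (Fin n → ℤ)} (h : LocMin M) {x : Fin n → ℤ}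
    (hx : x ∈ M) {r : ℝ} (hr : 0 ≤ r) :
    dens n ^ n * r ^ n ≤ ((M ∩ cube x r).ncard : ℝ) := by
  rw [cube_eq_box x hr]
  refine le_trans ?_ (h.volume_ge hn hx ⌊r⌋₊)
  rw [← mul_pow]
  have hc0 := dens_pos hn
  have hc1 := dens_le_one hn
  have h1 : r ≤ ⌊r⌋₊ + 1 := (Nat.lt_floor_add_one r).le
  gcongr
  nlinarith

theorem main (n : ℕ) (hn : 2 ≤ n) :
    ∃ c₂ c₄ : ℝ, 0 < c₂ ∧ 0 < c₄ ∧
      ∀ M : Set (Fin n → ℤ), IsMinimalSubgraph M → ∀ x ∈ M, ∃ r₀ : ℝ, ∀ r : ℝ, r₀ ≤ r →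
        c₂ * r ^ n ≤ ((M ∩ cube x r).ncard : ℝ) ∧
        c₄ * r ^ (n - 1) ≤ ((vertexBoundary M ∩ cube x r).ncard : ℝ) := by
  have hc0 := dens_pos hn
  have hc1 := dens_le_one hn
  have hn0 : (0 : ℝ) < n := by exact_mod_cast (by omega : 0 < n)
  refine ⟨dens n ^ n, dens n ^ n * (dens n / 2) ^ n / (n * 3 ^ (n + 1)), by positivity,
    by positivity, ?_⟩
  intro M hM x hx
  have hL := hM.locMin
  obtain ⟨y, hy⟩ : ∃ y, y ∉ M := by
    by_contra hcon
    push Not at hcon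
    exact hM.2.1 (Set.eq_univ_of_forall hcon)
  obtain ⟨d, hd⟩ := exists_mem_box x y
  refine ⟨2 * d + 2, fun r hr => ?_⟩
  have hd0 : (0 : ℝ) ≤ d := Nat.cast_nonneg d
  have hr0 : 0 ≤ r := by linarith
  have hr1 : 1 ≤ r := by linarith
  have hV := volume_bound hn hL hx hr0
  refine ⟨hV, ?_⟩
  rw [cube_eq_box x hr0] at hV ⊢
  set k := ⌊r⌋₊ with hk
  have hk1 : r ≤ k + 1 := (Nat.lt_floor_add_one r).le
  have hk2 : (k : ℝ) ≤ r := Nat.floor_le hr0
  have hdk : d ≤ k := by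
    have : (d : ℝ) ≤ k := by linarith
    exact_mod_cast this
  have hW : (dens n / 2) ^ n * r ^ n ≤ ((Mᶜ ∩ box x k).ncard : ℝ) := by
    have h1 := hL.compl.volume_ge hn (x := y) hy (k - d)
    have h2 : (Mᶜ ∩ box y (k - d)).ncard ≤ (Mᶜ ∩ box x k).ncard := by
      apply Set.ncard_le_ncard _ ((Finset.finite_toSet _).subset Set.inter_subset_right)
      apply Set.inter_subset_inter_right
      have := box_subset_box (k := k - d) hd
      rw [Nat.add_sub_cancel' hdk] at this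
      exact_mod_cast this
    have h2' : ((Mᶜ ∩ box y (k - d)).ncard : ℝ) ≤ (Mᶜ ∩ box x k).ncard := by exact_mod_cast h2
    refine le_trans ?_ (h1.trans h2')
    rw [← mul_pow, Nat.cast_sub hdk]
    gcongr
    nlinarith
  have hP : ((M ∩ box x k).ncard : ℝ) * (Mᶜ ∩ box x k).ncard ≤
      n * (2 * k + 1) ^ (n + 1) * (vertexBoundary M ∩ box x k).ncard := by
    exact_mod_cast poincare_box M x k
  set D : ℝ := ((vertexBoundary M ∩ box x k).ncard : ℝ) with hD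
  have hD0 : 0 ≤ D := Nat.cast_nonneg _
  have h3 : (dens n ^ n * r ^ n) * ((dens n / 2) ^ n * r ^ n) ≤ n * (3 * r) ^ (n + 1) * D := by
    calc _ ≤ ((M ∩ box x k).ncard : ℝ) * (Mᶜ ∩ box x k).ncard := by gcongr
      _ ≤ n * (2 * k + 1) ^ (n + 1) * D := hP
      _ ≤ n * (3 * r) ^ (n + 1) * D := by
        gcongr
        linarith
  obtain ⟨m, rfl⟩ : ∃ m, n = m + 1 := ⟨n - 1, by omega⟩
  simp only [Nat.add_sub_cancel]
  rw [div_mul_eq_mul_div, div_le_iff₀ (by positivity)]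
  have hrp : 0 < r ^ (m + 1 + 1) := by positivity
  apply le_of_mul_le_mul_right _ hrp
  calc dens (m + 1) ^ (m + 1) * (dens (m + 1) / 2) ^ (m + 1) * r ^ m * r ^ (m + 1 + 1)
      = (dens (m + 1) ^ (m + 1) * r ^ (m + 1)) * ((dens (m + 1) / 2) ^ (m + 1) * r ^ (m + 1)) := by
        ring
    _ ≤ _ := h3
    _ = _ := by rw [mul_pow]; ring

end Pool.Agent.MP_f12303_co
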